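import Mathlib
import Pool.Agent.Helper386.D5V.Helper386_FF_Div
import Pool.Agent.H639R3.Z.Fin
import Pool.Agent.H707R3.TowerL

/-!
Statements for the proof of Wan's conjectures on the `p`-adic splitting fields of the zeta functions
`P(X_n, s)` in a `ℤ_p`-tower of curves.
-/

set_option autoImplicit false

open FF Pool.Agent.H639R3
open scoped IntermediateField

namespace H680ZP

/-- an algebraic closure of the prime field -/
abbrev Om (p : ℕ) [Fact p.Prime] : Type := AlgebraicClosure (ZMod p)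

/-- the sum of the Teichmüller representatives of the roots of `P` -/
noncomputable def Th (p : ℕ) [Fact p.Prime] (P : Polynomial (ZMod p)) : WittVector p (Om p) :=
  ((P.aroots (Om p)).map (WittVector.teichmuller p)).sum

/-- the Teichmüller trace `∑_{j < r} [ι c] ^ (p ^ j)`, `#κ = p ^ r` -/
noncomputable def tt (p : ℕ) [Fact p.Prime] {κ : Type*} [Field κ] (ι : κ →+* Om p) (c : κ) :
    WittVector p (Om p) :=
  ∑ j ∈ Finset.range (Nat.log p (Nat.card κ)), (WittVector.teichmuller p (ι c)) ^ (p ^ j)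

/-- the first `m` Witt components vanish -/
def VZ {p : ℕ} {R : Type*} (m : ℕ) (w : WittVector p R) [Zero R] : Prop := ∀ i, i < m → w.coeff i = 0

/-! ### Block R: reciprocity for Teichmüller traces -/

/-- T1. `Th` modulo `V^m` depends only on the `p ^ (m-1)` top coefficients. -/
def TaskTheta : Prop := ∀ (p : ℕ) [Fact p.Prime] (m : ℕ) (P Q : Polynomial (ZMod p)),
  P.Monic → Q.Monic → P.natDegree = Q.natDegree →
  (∀ i, i ≤ p ^ (m - 1) → i ≤ P.natDegree →
    P.coeff (P.natDegree - i) = Q.coeff (P.natDegree - i)) →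
  VZ m (Th p P - Th p Q)

/-- T2. Constancy of the top coefficients of the characteristic polynomial. -/
def TaskConst : Prop := ∀ (p : ℕ) [Fact p.Prime] (K : Type) [Field K] [Algebra (ZMod p) K]
  (u b : K) (n : ℕ), Transcendental (ZMod p) u → IsAlgebraic (ZMod p)⟮u⟯ b →
  IsIntegral (Algebra.adjoin (ZMod p) {u⁻¹}) (b ^ (n + 1) * u⁻¹) →
  ∀ (P : Polynomial (Polynomial (ZMod p))) (r : ℕ), P.Monic →
    P.map (Polynomial.aeval u : Polynomial (ZMod p) →ₐ[ZMod p] K).toRingHom =
      ((minpoly (ZMod p)⟮u⟯ b) ^ r).map (algebraMap (ZMod p)⟮u⟯ K) →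
    ∀ i, 1 ≤ i → i ≤ n → i ≤ P.natDegree → (P.coeff (P.natDegree - i)).natDegree = 0

/-- T3. The characteristic polynomial of `b` over `𝔽_p[u]` and its specialisations. -/
def TaskSpec : Prop := ∀ (p : ℕ) [Fact p.Prime] (k K : Type) [Field k] [Finite k] [CharP k p]
  [Field K] [Algebra k K] [Algebra (ZMod p) K] [IsFF k K]
  (ι : ∀ x : Place k K, x.RF →+* Om p) (u b : K), Transcendental k u →
  Algebra.IsSeparable k⟮u⟯ K → (∀ x : Place k K, x.Reg u → x.Reg b) →
  ∃ (P : Polynomial (Polynomial (ZMod p))) (r : ℕ), P.Monic ∧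
    P.map (Polynomial.aeval u : Polynomial (ZMod p) →ₐ[ZMod p] K).toRingHom =
      ((minpoly (ZMod p)⟮u⟯ b) ^ r).map (algebraMap (ZMod p)⟮u⟯ K) ∧
    ∀ a : ZMod p, Th p (P.map (Polynomial.evalRingHom a)) =
      ∑ᶠ x : Place k K, (if 0 < x.ord (u - algebraMap (ZMod p) K a) then
        x.ord (u - algebraMap (ZMod p) K a) • tt p (ι x) (x.red b) else 0)

/-- T4. An element regular at all places where `v` is regular is integral over `𝔽_p[v]`. -/
def TaskInt : Prop := ∀ (p : ℕ) [Fact p.Prime] (k K : Type) [Field k] [Finite k] [CharP k p]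
  [Field K] [Algebra k K] [Algebra (ZMod p) K] [IsFF k K] (v z : K), Transcendental k v →
  Algebra.IsSeparable k⟮v⟯ K → (∀ x : Place k K, x.Reg v → x.Reg z) →
  IsIntegral (Algebra.adjoin (ZMod p) {v}) z

/-! ### Riemann's theorem -/

/-- The Riemann-Roch space. -/
def LLp {k K : Type} [Field k] [Field K] [Algebra k K] (D : Place k K →₀ ℤ) : Submodule k K where
  carrier := {f | f = 0 ∨ ∀ P : Place k K, - D P ≤ P.ord f}
  zero_mem' := Or.inl rfl
  add_mem' := by
    intro f g hf hg
    by_cases hf0 : f = 0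
    · rwa [hf0, zero_add]
    by_cases hg0 : g = 0
    · rwa [hg0, add_zero]
    by_cases hfg : f + g = 0
    · exact Or.inl hfg
    · right
      intro P
      exact (le_min ((hf.resolve_left hf0) P) ((hg.resolve_left hg0) P)).trans (P.ord_add hf0 hg0 hfg)
  smul_mem' := by
    intro c f hf
    by_cases hc : c = 0
    · left; rw [hc, zero_smul]
    by_cases hf0 : f = 0
    · left; rw [hf0, smul_zero]
    · right
      intro P
      rw [Algebra.smul_def, P.ord_mul (by simpa using hc) hf0, P.ord_const hc, zero_add]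
      exact (hf.resolve_left hf0) P

/-- The degree of a divisor. -/
noncomputable def ddp {k K : Type} [Field k] [Field K] [Algebra k K] (D : Place k K →₀ ℤ) : ℤ :=
  D.sum fun P n => n * P.deg

/-- T6. Basic facts and Riemann's theorem for function fields over finite fields. -/
def TaskRR : Prop := ∀ (k K : Type) [Field k] [Finite k] [Field K] [Algebra k K] [IsFF k K],
  (∀ f : K, {P : Place k K | P.ord f ≠ 0}.Finite) ∧
  (∀ P : Place k K, 0 < P.deg) ∧
  (∀ f : K, f ≠ 0 → ∑ᶠ P : Place k K, P.ord f * P.deg = 0) ∧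
  (∀ D : Place k K →₀ ℤ, FiniteDimensional k (LLp D)) ∧
  (∀ m : ℕ, {P : Place k K | P.deg ≤ m}.Finite) ∧
  ∃ γ N : ℤ, ∀ D : Place k K →₀ ℤ, N ≤ ddp D → (Module.finrank k (LLp D) : ℤ) = ddp D - γ

/-- T6'. There is a separating element (so that `K/k(t)` is separable) and it can be chosen such that
`t` times any `p`-th power is separating too; more precisely if `h ≠ -1` is not separating and `g` is
separating then `h + g + h * g` is separating. We ask for: for every bound `N` there is a separating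
`g` with `ord_x g > N` on `S`, and for every `h` with `h ≠ -1`, one of `h`, `h + g + h * g` is
separating. -/
def TaskSep : Prop := ∀ (k K : Type) [Field k] [Finite k] [Field K] [Algebra k K] [IsFF k K]
  (S : Finset (Place k K)) (N : ℕ), ∃ g : K, Transcendental k g ∧ Algebra.IsSeparable k⟮g⟯ K ∧
    (∀ x ∈ S, (N : ℤ) < x.ord g) ∧ ∀ h : K, h ≠ -1 → Transcendental k h →
      Algebra.IsSeparable k⟮h⟯ K ∨ (Transcendental k (h + g + h * g) ∧
        Algebra.IsSeparable k⟮h + g + h * g⟯ K)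

/-- T5. Reciprocity for Teichmüller traces. -/
def TaskRecip : Prop := ∀ (p : ℕ) [Fact p.Prime] (k K : Type) [Field k] [Finite k] [CharP k p]
  [Field K] [Algebra k K] [IsFF k K] (S : Finset (Place k K)), S.Nonempty →
  ∀ (ι : ∀ x : Place k K, x.RF →+* Om p) (b : K), (∀ x, x ∉ S → x.Reg b) → ∀ m : ℕ,
  ∃ N : ℕ, ∀ h : K, (∀ x ∈ S, h = 0 ∨ (N : ℤ) < x.ord h) →
    VZ m (∑ᶠ x : Place k K, x.ord (1 + h) • tt p (ι x) (x.red b))

def TaskRecipAsm : Prop := TaskTheta → TaskConst → TaskSpec → TaskInt → TaskRR → TaskSep → TaskRecip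

/-! ### Block A: Artin-Schreier-Witt theory of the tower -/

section towers

variable {p : ℕ} [Fact p.Prime] {k K L : Type} [Field k] [Field K] [Field L]
    [Algebra k K] [Algebra K L] [Algebra k L] [IsScalarTower k K L]

/-- the exponent modulo `p ^ n` of an element of the Galois group, as a natural number -/
noncomputable def ex (T : ZpTower p k K L) (n : ℕ) (σ : L ≃ₐ[K] L) : ℕ :=
  (PadicInt.toZModPow n (T.iso σ).toAdd).val

/-- `y` is an Artin-Schreier-Witt generator modulo `V ^ n` -/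
def IsASW (T : ZpTower p k K L) (n : ℕ) (y : WittVector p L) : Prop :=
  ∀ σ : L ≃ₐ[K] L, VZ n (WittVector.map (σ : L →+* L) y - y - (ex T n σ : WittVector p L))

end towers

/-- A1. Existence of Artin-Schreier-Witt generators. -/
def TaskY : Prop := ∀ (p : ℕ) [Fact p.Prime] (k K L : Type) [Field k] [Finite k] [CharP k p]
  [Field K] [Field L] [Algebra k K] [Algebra K L] [Algebra k L] [IsScalarTower k K L]
  (T : ZpTower p k K L) (n : ℕ), ∃ y : WittVector p L, IsASW T n y

/-- A2. Local reduction at an unramified place. -/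
def TaskLocal : Prop := ∀ (p : ℕ) [Fact p.Prime] (k K L : Type) [Field k] [Finite k] [CharP k p]
  [Field K] [Field L] [Algebra k K] [Algebra K L] [Algebra k L] [IsScalarTower k K L]
  (T : ZpTower p k K L) (n : ℕ) (y : WittVector p L), IsASW T n y →
  ∀ x : ClosedPoint k K, x ∉ T.S → ∃ g : WittVector p K,
    ∀ w : ValuationSubring L, w.comap (algebraMap K L) = x.ring → ∀ j, j < n →
      (y - WittVector.map (algebraMap K L) g).coeff j ∈ w

/-- A3. Strong approximation for Witt vectors. -/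
def TaskSA : Prop := ∀ (p : ℕ) [Fact p.Prime] (k K : Type) [Field k] [Finite k] [CharP k p]
  [Field K] [Algebra k K] [IsFF k K] (S : Finset (Place k K)), S.Nonempty →
  ∀ (n : ℕ) (gx : Place k K → WittVector p K),
    {x : Place k K | ∃ j, j < n ∧ ¬ x.Reg ((gx x).coeff j)}.Finite →
    ∃ g : WittVector p K, ∀ x, x ∉ S → ∀ j, j < n → x.Reg ((g - gx x).coeff j)

/-- A4. The Frobenius formula. -/
def TaskFrob : Prop := ∀ (p : ℕ) [Fact p.Prime] (k K L : Type) [Field k] [Finite k] [CharP k p]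
  [Field K] [Field L] [Algebra k K] [Algebra K L] [Algebra k L] [IsScalarTower k K L]
  (T : ZpTower p k K L) (n : ℕ) (y : WittVector p L), IsASW T n y →
  ∀ b : ℕ → K, (∀ j, j < n → (WittVector.frobenius y - y).coeff j = algebraMap K L (b j)) →
  ∀ x : ClosedPoint k K, x ∉ T.S → ∀ hb : (∀ j, j < n → b j ∈ x.ring),
    ∀ ι : IsLocalRing.ResidueField x.ring →+* Om p,
    VZ n ((ex T n (frob x) : WittVector p (Om p)) - ∑ j : Fin n,
      (p : WittVector p (Om p)) ^ (j : ℕ) *
        tt p ι (IsLocalRing.residue x.ring ⟨b j, hb j j.2⟩))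

/-- A5. The exponents of the Frobenius elements as sums of Teichmüller traces. -/
def TaskASW : Prop := ∀ (p : ℕ) [Fact p.Prime] (k K L : Type) [Field k] [Finite k] [CharP k p]
  [Field K] [Field L] [Algebra k K] [Algebra K L] [Algebra k L] [IsScalarTower k K L]
  (T : ZpTower p k K L) (n : ℕ), ∃ b : ℕ → K, ∃ hb : (∀ x : ClosedPoint k K, x ∉ T.S →
    ∀ j, j < n → b j ∈ x.ring), ∀ (x : ClosedPoint k K) (hx : x ∉ T.S)
    (ι : IsLocalRing.ResidueField x.ring →+* Om p),
    VZ n ((ex T n (frob x) : WittVector p (Om p)) - ∑ j : Fin n,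
      (p : WittVector p (Om p)) ^ (j : ℕ) *
        tt p ι (IsLocalRing.residue x.ring ⟨b j, hb x hx j j.2⟩))

/-- BR. Closed points are the same as places. -/
def TaskBridge : Prop := ∀ (k K : Type) [Field k] [Finite k] [Field K] [Algebra k K],
  IsCurve k K → IsFF k K ∧ ∃ e : Place k K ≃ ClosedPoint k K,
    ∀ P : Place k K, (e P).ring = P.O ∧ (e P).deg = P.deg

def TaskASWAsm : Prop := TaskY → TaskLocal → TaskSA → TaskFrob → TaskBridge → TaskRR → TaskASW

def TaskSAAsm : Prop := TaskRR → TaskSA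

/-! ### Block P: polynomiality -/

/-- P4a. The coefficients of an Euler product as sums over effective divisors. -/
def TaskCoeff : Prop := ∀ {X R : Type} [Field R] (d : X → ℕ) (c : X → R), (∀ x, 0 < d x) →
  (∀ m, {x | d x ≤ m}.Finite) → ∀ m : ℕ,
    {D : X →₀ ℕ | (D.sum fun x j => j * d x) = m}.Finite ∧
    PowerSeries.coeff m (eulerProduct d c) =
      ∑ᶠ D ∈ {D : X →₀ ℕ | (D.sum fun x j => j * d x) = m}, D.prod fun x j => c x ^ j

/-- P4b. Vanishing of the sums of a multiplicative function of finite conductor. -/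
def TaskVanish : Prop := ∀ (k K R : Type) [Field k] [Finite k] [Field K] [Algebra k K] [IsFF k K]
  [Field R] [CharZero R] (S : Finset (Place k K)), S.Nonempty → ∀ c : Place k K → Rˣ, ∀ N : ℕ,
  (∀ h : K, (∀ x ∈ S, h = 0 ∨ (N : ℤ) < x.ord h) → ∏ᶠ x : Place k K, c x ^ x.ord (1 + h) = 1) →
  (∃ B : Place k K →₀ ℤ, (∀ x ∈ S, B x = 0) ∧ ddp B = 0 ∧ (B.prod fun x j => c x ^ j) ≠ 1) →
  ∃ M : ℕ, ∀ m, M ≤ m →
    ∑ᶠ D ∈ {D : {x : Place k K // x ∉ S} →₀ ℕ | (D.sum fun x j => j * x.1.deg) = m},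
      (D.prod fun x j => ((c x.1 : Rˣ) : R) ^ j) = 0

def TaskVanishAsm : Prop := TaskRR → TaskVanish

/-- the zeta numerator with coefficients in an arbitrary field -/
noncomputable def zn (k F R : Type) [Field k] [Field F] [Algebra k F] [Field R] : PowerSeries R :=
  (1 - PowerSeries.X) * (1 - PowerSeries.C (Nat.card k : R) * PowerSeries.X) *
    eulerProduct (fun x : ClosedPoint k F => x.deg) fun _ => (1 : R)

/-- P3. The characters of the tower are not trivial on divisors of degree zero. -/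
def TaskNontriv : Prop := ∀ (p : ℕ) [Fact p.Prime] (k K L : Type) [Field k] [Finite k] [CharP k p]
  [Field K] [Field L] [Algebra k K] [Algebra K L] [Algebra k L] [IsScalarTower k K L]
  (T : ZpTower p k K L) (A : ℕ → Multiset ℂ),
  (∀ n, zn k (T.layer n) ℂ = ((A n).map fun α => 1 - PowerSeries.C α * PowerSeries.X).prod) →
  ∀ n, 0 < n → ∃ B : ClosedPoint k K →₀ ℤ, (∀ x ∈ T.S, B x = 0) ∧
    (B.sum fun x j => j * (x.deg : ℤ)) = 0 ∧
    ¬ ((p : ℤ) ^ n ∣ B.sum fun x j => j * (ex T n (frob x) : ℤ))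

/-- P6. The factorisation of the zeta numerators. -/
def TaskFactor : Prop := ∀ (p : ℕ) [Fact p.Prime] (k K L R : Type) [Field k] [Finite k] [CharP k p]
  [Field K] [Field L] [Algebra k K] [Algebra K L] [Algebra k L] [IsScalarTower k K L] [Field R]
  [CharZero R] [IsAlgClosed R]
  (T : ZpTower p k K L), (∀ x ∈ T.S, ¬ IsUnramifiedIn L x) → ∃ n0, ∀ n, n0 ≤ n →
    zn k (T.layer (n + 1)) R = zn k (T.layer n) R *
      ∏ z ∈ primitiveRoots (p ^ (n + 1)) R,
        eulerProduct (fun x : {x : ClosedPoint k K // x ∉ T.S} => x.1.deg)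
          (fun x => z ^ ex T (n + 1) (frob x.1))

/-- LB. The lower bound for the reciprocal roots of the `L`-functions (helper707's `core`). -/
def TaskLB : Prop := ∀ (p : ℕ) [Fact p.Prime] (k K L : Type) [Field k] [Finite k] [CharP k p]
  [Field K] [Field L] [Algebra k K] [Algebra K L] [Algebra k L] [IsScalarTower k K L]
  (T : ZpTower p k K L), ∃ c : ℝ, 0 < c ∧ ∃ N : ℕ, ∀ n, N ≤ n → ∀ z : ℂ_[p],
    IsPrimitiveRoot z (p ^ n) → ∀ A : Multiset ℂ_[p],
      eulerProduct (fun x : {x : ClosedPoint k K // x ∉ T.S} => x.1.deg)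
          (fun x => z ^ ex T n (frob x.1)) =
        (A.map fun α => 1 - PowerSeries.C α * PowerSeries.X).prod →
      c * (p : ℝ) ^ n ≤ Pool.Agent.H707R3.ramIdx (Pool.Agent.H707R3.genField A)

/-- MO. Monotonicity of the ramification index. -/
def TaskMono : Prop := ∀ (p : ℕ) [Fact p.Prime] (A B : Multiset ℂ_[p]), (∀ α ∈ A, α ∈ B) →
  (∀ α ∈ B, IsIntegral ℚ_[p] α) →
    Pool.Agent.H707R3.ramIdx (Pool.Agent.H707R3.genField A) ≤
      Pool.Agent.H707R3.ramIdx (Pool.Agent.H707R3.genField B)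

/-- The main theorem. -/
def Main : Prop := ∀ (p : ℕ) [Fact p.Prime] (k K L : Type) [Field k] [Finite k] [CharP k p]
  [Field K] [Field L] [Algebra k K] [Algebra K L] [Algebra k L] [IsScalarTower k K L]
  (T : ZpTower p k K L), (∀ x ∈ T.S, ¬ IsUnramifiedIn L x) → ∀ A : ℕ → Multiset ℂ_[p],
  (∀ n, zn k (T.layer n) ℂ_[p] =
    ((A n).map fun α => 1 - PowerSeries.C α * PowerSeries.X).prod) →
  ∃ c : ℝ, 0 < c ∧ ∃ N : ℕ, ∀ n, N ≤ n →
    c * (p : ℝ) ^ n ≤ Pool.Agent.H707R3.ramIdx (Pool.Agent.H707R3.genField (A n))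

end H680ZP
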